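import Mathlib
import Pool.Agent.Helper431.PN.Base
import Pool.Agent.Helper431.PN.N3
import Pool.Agent.Helper407.PN.Top
import Pool.Agent.Helper407.PN.IrrBC
import Pool.Agent.Helper407.PN.BNum
import Pool.Agent.Helper407.PN.IrrO

set_option autoImplicit false

open Pool.Agent.Helper431.PN Pool.Agent.Helper407.PN

namespace Pool.Agent.Results.MP_7d5a9b_al.ExactRanges

/-- Sanity check (not part of the result): for a prime `p` and `m ≥ 1` the group `PGroup p m n`
consists exactly of the matrices satisfying the entry conditions `IsP p m n`. -/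
theorem exists_mem_iff (p m n : ℕ) (hp : p.Prime) (hm : 1 ≤ m)
    (A : Matrix (Fin n) (Fin n) (ZMod (p ^ m))) :
    (∃ g ∈ PGroup p m n, (g : Matrix (Fin n) (Fin n) (ZMod (p ^ m))) = A) ↔ IsP p m n A := by
  constructor
  · rintro ⟨g, hg, rfl⟩
    exact hg.1
  · intro h
    exact mem_of_isP hp hm A h

theorem reg (p m n : ℕ) (hp : p.Prime) (hm : 3 ≤ m) (hn : 1 ≤ n)
    (h : min (m * n - 1) (n ^ 2 - n + 2) ≤ p) : IsRegular p (PGroup p m n) := by
  rcases min_le_iff.1 h with h | h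
  · rcases Nat.lt_or_ge p (m * n) with h1 | h1
    · rcases Nat.lt_or_ge n 2 with h2 | h2
      · have : n = 1 := by omega
        subst this
        exact regular_dir hp (by omega) hn (by have := hp.one_lt; norm_num; omega)
      · exact regular_top hp hm h2 (by omega)
    · exact regular_merz hp (by omega) hn h1
  · exact regular_dir hp (by omega) hn (by omega)

theorem irr (p m n : ℕ) (hp : p.Prime) (hm : 3 ≤ m) (hn : 1 ≤ n) (hpn : p ≤ n ^ 2 - n + 1)
    (h : p ≤ 3 * n - 2 ∨ p + n - 1 ≤ (m + 1) / 2 * n ∨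
      ∃ k, 1 ≤ k ∧ k ≤ m ∧ 2 * k ≤ n ∧ p ≤ k * (n - k)) : ¬ IsRegular p (PGroup p m n) := by
  have h2 := hp.two_le
  have hn2 : 2 ≤ n := by
    by_contra hlt
    have : n = 1 := by omega
    subst this
    norm_num at hpn
    omega
  by_cases h3 : p + 2 ≤ 3 * n
  · exact irregular_c hp hn2 h3 hm
  rcases h with h | h | ⟨k, hk1, hkm, hkn, hpk⟩
  · omega
  · exact irregular_large' hp (by omega) hn2 (by omega) hpn h (by omega) (by omega)
  · exact irregular_block hp hk1 hkn hpk hkm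

/-- Let `p` be prime, `m ≥ 3`, `n ≥ 1`. If `m = 3` or `n ≤ 3` or `m ≥ 2 n - 1`, then
`P_n(ℤ/p^m)` is regular iff `p ≥ min (m n - 1, n² - n + 2)`. For all `m ≥ 3` this condition is
sufficient, and for `p ≤ n² - n + 1` the group is irregular if `p ≤ 3 n - 2`, or
`p ≤ (⌊(m+1)/2⌋ - 1) n + 1`, or `p ≤ k (n - k)` for some `1 ≤ k ≤ m` with `2 k ≤ n`. -/
theorem result (p m n : ℕ) (hp : p.Prime) (hm : 3 ≤ m) (hn : 1 ≤ n) :
    ((m = 3 ∨ n ≤ 3 ∨ 2 * n - 1 ≤ m) →
      (IsRegular p (PGroup p m n) ↔ min (m * n - 1) (n ^ 2 - n + 2) ≤ p)) ∧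
    (min (m * n - 1) (n ^ 2 - n + 2) ≤ p → IsRegular p (PGroup p m n)) ∧
    (p ≤ n ^ 2 - n + 1 → (p ≤ 3 * n - 2 ∨ p + n - 1 ≤ (m + 1) / 2 * n ∨
      ∃ k, 1 ≤ k ∧ k ≤ m ∧ 2 * k ≤ n ∧ p ≤ k * (n - k)) →
        ¬ IsRegular p (PGroup p m n)) := by
  refine ⟨fun h => ⟨fun hr => ?_, reg p m n hp hm hn⟩, reg p m n hp hm hn,
    irr p m n hp hm hn⟩
  by_contra hlt
  rw [not_le, lt_min_iff] at hlt
  obtain ⟨h1, h2⟩ := hlt
  refine irr p m n hp hm hn (by omega) ?_ hr
  rcases h with h | h | h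
  · subst h
    left
    omega
  · left
    interval_cases n <;> norm_num at h2 ⊢ <;> omega
  · right; left
    have e1 : n ≤ (m + 1) / 2 := by omega
    have e2 : n * n ≤ (m + 1) / 2 * n := Nat.mul_le_mul_right n e1
    have e3 : n ≤ n ^ 2 := by nlinarith
    have e4 : n ^ 2 = n * n := by ring
    omega

end Pool.Agent.Results.MP_7d5a9b_al.ExactRanges
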