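import Mathlib
import Pool.Agent.Helper431.PN.Base
import Pool.Agent.Helper431.PN.N3
import Pool.Agent.Helper431.PN.I4
import Pool.Agent.Helper431.PN.Mono

set_option autoImplicit false

open Pool.Agent.Helper431.PN

namespace Pool.Agent.Results.MP_7d5a9b_al.SharpThreshold

/-- Sanity check (not part of the result): for a prime `p` and `m ≥ 1` the group `PGroup p m n`
consists exactly of the matrices satisfying the entry conditions `IsP p m n`. -/
theorem exists_mem_iff (p m n : ℕ) (hp : p.Prime) (hm : 1 ≤ m)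
    (A : Matrix (Fin n) (Fin n) (ZMod (p ^ m))) :
    (∃ g ∈ PGroup p m n, (g : Matrix (Fin n) (Fin n) (ZMod (p ^ m))) = A) ↔ IsP p m n A := by
  constructor
  · rintro ⟨g, hg, rfl⟩
    exact hg.1
  · intro h
    exact mem_of_isP hp hm A h

/-- For a prime `p` and `n ≥ 1`: if `p > n² - n + 1` then `P_n(ℤ/p^m)` is regular for every
`m ≥ 1`; if `p ≤ n² - n + 1` then there is a threshold `M` such that, for `m ≥ 1`, the group
`P_n(ℤ/p^m)` is regular exactly for `m < M`. -/
theorem result (p n : ℕ) (hp : p.Prime) (hn : 1 ≤ n) :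
    (n ^ 2 - n + 1 < p → ∀ m, 1 ≤ m → IsRegular p (PGroup p m n)) ∧
    (p ≤ n ^ 2 - n + 1 →
      ∃ M : ℕ, ∀ m, 1 ≤ m → (IsRegular p (PGroup p m n) ↔ m < M)) := by
  classical
  refine ⟨fun h m hm => regular_dir hp hm hn h, fun h => ?_⟩
  obtain ⟨M0, hM0⟩ := irregular_dir hp h
  have hex : ∃ m, 1 ≤ m ∧ ¬ IsRegular p (PGroup p m n) :=
    ⟨M0 + 1, by omega, hM0 (M0 + 1) (by omega)⟩
  refine ⟨Nat.find hex, fun m hm => ?_⟩
  have h1 := Nat.find_spec hex
  constructor
  · intro hr
    by_contra hlt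
    push Not at hlt
    exact h1.2 (isRegular_mono hp h1.1 hlt hr)
  · intro hlt
    by_contra hr
    exact Nat.find_min hex hlt ⟨hm, hr⟩

end Pool.Agent.Results.MP_7d5a9b_al.SharpThreshold
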