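import Mathlib
import Pool.Agent.Helper431.PN.Base
import Pool.Agent.Helper431.PN.N3
import Pool.Agent.Helper431.PN.E5
import Pool.Agent.Helper431.PN.B5

set_option autoImplicit false

open Pool.Agent.Helper431.PN

namespace Pool.Agent.Results.MP_7d5a9b_al.ThresholdBounds

/-- Sanity check (not part of the result): for a prime `p` and `m ≥ 1` the group `PGroup p m n`
consists exactly of the matrices satisfying the entry conditions `IsP p m n`. -/
theorem exists_mem_iff (p m n : ℕ) (hp : p.Prime) (hm : 1 ≤ m)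
    (A : Matrix (Fin n) (Fin n) (ZMod (p ^ m))) :
    (∃ g ∈ PGroup p m n, (g : Matrix (Fin n) (Fin n) (ZMod (p ^ m))) = A) ↔ IsP p m n A := by
  constructor
  · rintro ⟨g, hg, rfl⟩
    exact hg.1
  · intro h
    exact mem_of_isP hp hm A h

/-- For a prime `p` and `n ≥ 1`: if `p > n² - n + 1` then `P_n(ℤ/p^m)` is regular for every
`m ≥ 1`; if `p ≤ n² - n + 1` then there is a threshold `M` such that, for `m ≥ 1`, the group
`P_n(ℤ/p^m)` is regular exactly for `m < M`, and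
`p / n < M ≤ 2 ⌈(p - 1) / n⌉ + 2`, and `M ≤ m` whenever `m ≥ 2` and `p ≤ m (n - m)`. -/
theorem result (p n : ℕ) (hp : p.Prime) (hn : 1 ≤ n) :
    (n ^ 2 - n + 1 < p → ∀ m, 1 ≤ m → IsRegular p (PGroup p m n)) ∧
    (p ≤ n ^ 2 - n + 1 →
      ∃ M : ℕ, p < M * n ∧ M ≤ 2 * ((p + n - 2) / n) + 2 ∧
        (∀ m, 2 ≤ m → p ≤ m * (n - m) → M ≤ m) ∧
        ∀ m, 1 ≤ m → (IsRegular p (PGroup p m n) ↔ m < M)) := by
  refine ⟨fun h m hm => regular_dir hp hm hn h, fun h => ?_⟩
  obtain ⟨M, h1, h2, h3⟩ := threshold hp h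
  refine ⟨M, h1, h2, fun m hm hpm => ?_, h3⟩
  by_contra hlt
  push Not at hlt
  exact irregular_mnm hp hm hpm ((h3 m (by omega)).2 hlt)

end Pool.Agent.Results.MP_7d5a9b_al.ThresholdBounds
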